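import Pool.Agent.Helper53.Motivic.Defs

/-! # Lemmas on finitely generated groups and the sequences of the theory -/

set_option autoImplicit false

namespace Pool.Agent.Helper53.Motivic

universe u v

theorem subsingleton_of_divisible {A : Type v} [AddCommGroup A] [Module.Finite ℤ A]
    (h : ∀ m : ℕ, 0 < m → Function.Bijective fun x : A => m • x) : Subsingleton A := by
  have h1 : (⊤ : Submodule ℤ A) ≤ (Ideal.span {(2 : ℤ)}) • (⊤ : Submodule ℤ A) := by
    intro x _
    obtain ⟨y, hy⟩ := (h 2 (by norm_num)).2 x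
    have : x = (2 : ℤ) • y := by rw [← hy]; norm_cast
    rw [this]
    exact Submodule.smul_mem_smul (Ideal.mem_span_singleton_self _) trivial
  obtain ⟨r, hr, hr0⟩ := Submodule.exists_sub_one_mem_and_smul_eq_zero_of_fg_of_le_smul
    (Ideal.span {(2 : ℤ)}) (⊤ : Submodule ℤ A) Module.Finite.fg_top h1
  have hr1 : r ≠ 0 := by
    rintro rfl
    rw [Ideal.mem_span_singleton] at hr
    omega
  constructor
  intro x y
  have key : ∀ x : A, x = 0 := by
    intro x
    apply (h r.natAbs (Int.natAbs_pos.mpr hr1)).1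
    have h2 : r • x = 0 := hr0 x trivial
    change r.natAbs • x = r.natAbs • (0 : A)
    rw [smul_zero]
    rcases Int.natAbs_eq r with h3 | h3
    · rw [h3, natCast_zsmul] at h2; exact h2
    · rw [h3, neg_smul, natCast_zsmul, neg_eq_zero] at h2; exact h2
  rw [key x, key y]

theorem finite_of_exact {A B C : Type v} [AddCommGroup A] [AddCommGroup B] [AddCommGroup C]
    (f : A →+ B) (g : B →+ C) (h : Function.Exact f g) [Module.Finite ℤ A] [Module.Finite ℤ C] :
    Module.Finite ℤ B := by
  let g' := g.toIntLinearMap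
  have h1 : (LinearMap.ker g').FG := by
    have : LinearMap.ker g' = LinearMap.range f.toIntLinearMap := by
      ext x
      exact h x
    rw [this]
    exact Module.Finite.iff_fg.mp inferInstance
  have h2 : (LinearMap.range g').FG := IsNoetherian.noetherian _
  exact ⟨Submodule.fg_of_fg_map_of_fg_inf_ker g' (by rwa [← LinearMap.range_eq_map])
    (by rwa [top_inf_eq])⟩

theorem finite_iff (T : Theory.{u, v}) (X : T.Sch) (n : ℕ) (i : ℤ) :
    T.FG X n i ↔ Module.Finite ℤ (T.H X n i) := Module.Finite.iff_addGroup_fg.symm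

theorem deg_def (i : ℤ) (k : ℕ) : deg i k = i - 2 * k := rfl

/-- the sequence of the blow-up with the direct sum in the middle -/
theorem exact_of_blowup (T : Theory.{u, v}) {Y : T.Sch} {M : ℕ} {Z : T.Sch} {i : ℤ} (h : T.BlowupSequence Y M Z i) :
    ∃ (δ : T.H (T.space M) (M + 1) (i - 1) →+ T.Sum Z (M + 1) 1 (M - T.dim Z) i)
      (f : T.Sum Z (M + 1) 1 (M - T.dim Z) i →+ T.H Y (M + 1) i)
      (g : T.H Y (M + 1) i →+ T.H (T.space M) (M + 1) i), Function.Exact δ f ∧ Function.Exact f g := by
  obtain ⟨δ, f, g, h1, h2⟩ := h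
  refine ⟨AddMonoidHom.mk' (fun y k => δ k y) (fun a b => by funext k; simp),
    AddMonoidHom.mk' (fun x => ∑ k, f k (x k)) (fun a b => by simp [Finset.sum_add_distrib]), g, ?_, ?_⟩
  · intro x
    change T.total f x = 0 ↔ _
    rw [h1 x]
    constructor
    · rintro ⟨y, hy⟩
      exact ⟨y, funext hy⟩
    · rintro ⟨y, rfl⟩
      exact ⟨y, fun k => rfl⟩
  · intro z
    exact h2 z

/-- the projective bundle formula as an isomorphism -/
theorem equiv_of_bundle (T : Theory.{u, v}) {X : T.Sch} {N w : ℕ} {i : ℤ} (h : T.BundleFormula X N w i) :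
    Nonempty (T.Sum X w 0 (N + 1) i ≃+ T.H (T.proj X N) w i) := by
  obtain ⟨f, hf⟩ := h
  exact ⟨AddEquiv.ofBijective
    (AddMonoidHom.mk' (fun x => ∑ k, f k (x k)) (fun a b => by simp [Finset.sum_add_distrib])) hf⟩

end Pool.Agent.Helper53.Motivic
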