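import Mathlib

/-!
# Top-weight etale motivic cohomology of arithmetic schemes: the setting

The schemes are the regular, connected schemes which are projective over `Spec ℤ`. The groups are
`H X n i = Hⁱ(X_et, ℤ(n))` in the weights `n ≥ dim X`.
-/

set_option autoImplicit false

namespace Pool.Agent.Helper53.Motivic

universe u v

/-- Data: arithmetic schemes, their dimensions, the etale motivic cohomology groups, the products
with projective spaces, and blow-ups. -/
structure Theory where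
  /-- the regular, connected, projective schemes over `Spec ℤ` -/
  Sch : Type u
  /-- the Krull dimension -/
  dim : Sch → ℕ
  /-- `H X n i` is `Hⁱ(X_et, ℤ(n))`; it is only used for `n ≥ dim X` -/
  H : Sch → ℕ → ℤ → Type v
  [group : ∀ X n i, AddCommGroup (H X n i)]
  /-- `Spec ℤ` -/
  base : Sch
  /-- `proj X N = X × ℙ^N` -/
  proj : Sch → ℕ → Sch
  /-- `IsBlowup Y M Z`: `Z` is a regular connected closed subscheme of `ℙ^M_ℤ`, of codimension at
  least one, and `Y` is the blow-up of `ℙ^M_ℤ` along `Z` -/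
  IsBlowup : Sch → ℕ → Sch → Prop

attribute [instance] Theory.group

variable (T : Theory.{u, v})

/-- `space M` is `ℙ^M_ℤ`, the projective space of relative dimension `M` over `Spec ℤ` -/
def Theory.space (M : ℕ) : T.Sch := T.proj T.base M

/-- homomorphisms between the groups -/
abbrev Theory.Hom (X : T.Sch) (n : ℕ) (i : ℤ) (Y : T.Sch) (m : ℕ) (j : ℤ) : Type v :=
  T.H X n i →+ T.H Y m j

/-- the value of a homomorphism -/
def Theory.app {X : T.Sch} {n : ℕ} {i : ℤ} {Y : T.Sch} {m : ℕ} {j : ℤ} (f : T.Hom X n i Y m j) (x : T.H X n i) :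
    T.H Y m j := f x

/-- finite generation of `Hⁱ(X_et, ℤ(n))` -/
def Theory.FG (X : T.Sch) (n : ℕ) (i : ℤ) : Prop := AddGroup.FG (T.H X n i)

/-- `Hⁱ(X_et, ℤ(n))` is a rational vector space: multiplication by `m > 0` is bijective -/
def Theory.Rational (X : T.Sch) (n : ℕ) (i : ℤ) : Prop :=
  ∀ m : ℕ, 0 < m → Function.Bijective fun x : T.H X n i => m • x

/-- `i - 2 k` -/
def deg (i : ℤ) (k : ℕ) : ℤ := i - 2 * k

/-- the elements of `⊕_{s ≤ k < s + a} Hⁱ⁻²ᵏ(Z, ℤ(w - k))` (written with `k + s` for `k`) -/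
abbrev Theory.Sum (Z : T.Sch) (w s a : ℕ) (i : ℤ) : Type v :=
  (k : Fin a) → T.H Z (w - (k + s)) (deg i (k + s))

/-- the homomorphism from the direct sum given by its components -/
def Theory.total {Z Y : T.Sch} {w s a m : ℕ} {i j : ℤ}
    (f : ∀ k : Fin a, T.Hom Z (w - (k + s)) (deg i (k + s)) Y m j) (x : T.Sum Z w s a i) : T.H Y m j :=
  ∑ k, T.app (f k) (x k)

/-- the projective bundle formula for `P = X × ℙ^N` in the weight `w` (which is always `dim P = dim X + N`):
`Hⁱ(P, ℤ(w)) = ⊕_{k = 0}^N Hⁱ⁻²ᵏ(X, ℤ(w - k))` -/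
def Theory.BundleFormula (X : T.Sch) (N w : ℕ) (i : ℤ) : Prop :=
  ∃ f : ∀ k : Fin (N + 1), T.Hom X (w - (k + 0)) (deg i (k + 0)) (T.proj X N) w i,
    Function.Bijective (T.total f)

/-- the exact sequence of the blow-up `Y` of `P = space M` along `Z`, of codimension `c = M + 1 - dim Z`,
in the weight `n = dim P = M + 1`:
`Hⁱ⁻¹(P, ℤ(n)) → ⊕_{k = 1}^{c - 1} Hⁱ⁻²ᵏ(Z, ℤ(n - k)) → Hⁱ(Y, ℤ(n)) → Hⁱ(P, ℤ(n))` -/
def Theory.BlowupSequence (Y : T.Sch) (M : ℕ) (Z : T.Sch) (i : ℤ) : Prop :=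
  ∃ (δ : ∀ k : Fin (M - T.dim Z), T.Hom (T.space M) (M + 1) (i - 1) Z (M + 1 - (k + 1)) (deg i (k + 1)))
    (f : ∀ k : Fin (M - T.dim Z), T.Hom Z (M + 1 - (k + 1)) (deg i (k + 1)) Y (M + 1) i)
    (g : T.Hom Y (M + 1) i (T.space M) (M + 1) i),
    (∀ x, T.total f x = 0 ↔ ∃ y, ∀ k, T.app (δ k) y = x k) ∧ ∀ z, T.app g z = 0 ↔ ∃ x, T.total f x = z

/-- The properties of the data which are used. -/
structure Theory.Standard : Prop where
  dim_base : T.dim T.base = 1
  dim_proj : ∀ X N, T.dim (T.proj X N) = T.dim X + N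
  dim_blowup : ∀ {Y M Z}, T.IsBlowup Y M Z → T.dim Y = M + 1
  dim_center : ∀ {Y M Z}, T.IsBlowup Y M Z → T.dim Z ≤ M
  /-- every projective scheme is a closed subscheme of all large projective spaces -/
  exists_blowup : ∀ Z, ∃ M₀, ∀ M ≥ M₀, ∃ Y, T.IsBlowup Y M Z
  /-- in negative degrees the groups are the rational groups -/
  rational : ∀ X n i, T.dim X ≤ n → i < 0 → T.Rational X n i
  /-- `ℤ(1) = 𝔾_m[-1]` on `Spec ℤ`: the groups are `0`, the units and the class group -/
  integers : ∀ i ≤ 2, T.FG T.base 1 i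
  bundle : ∀ X N w i, w = T.dim X + N → T.BundleFormula X N w i
  blowup : ∀ {Y M Z}, T.IsBlowup Y M Z → ∀ i, T.BlowupSequence Y M Z i

/-- the rational schemes of the theorem: projective spaces over `ℤ` and their blow-ups along one
regular connected centre which belongs to the class `C` -/
def Theory.IsRational (C : Set T.Sch) (X : T.Sch) : Prop :=
  (∃ M, X = T.space M) ∨ ∃ M, ∃ Z ∈ C, T.IsBlowup X M Z

/-- the part of the conjecture for `X` in the degrees `2 d - φ d ≤ i ≤ 2 d`, where `d = dim X`; always `0 ≤ i` -/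
def Theory.FGNearTop (φ : ℕ → ℕ) (X : T.Sch) : Prop :=
  ∀ i : ℤ, 0 ≤ i → 2 * (T.dim X : ℤ) - φ (T.dim X) ≤ i → i ≤ 2 * (T.dim X : ℤ) → T.FG X (T.dim X) i

/-- in the weight `n`: vanishing in the negative degrees (Beilinson-Soule) and finite generation in
the degrees `0 ≤ i ≤ 2 n` -/
def Theory.Weight (X : T.Sch) (n : ℕ) : Prop :=
  (∀ i < 0, Subsingleton (T.H X n i)) ∧ ∀ i : ℤ, 0 ≤ i → i ≤ 2 * (n : ℤ) → T.FG X n i

/-- in all weights `n > dim Z`: vanishing in the negative degrees (Beilinson-Soule) and finite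
generation in the degrees `0 ≤ i ≤ 2 n` -/
def Theory.HigherWeights (Z : T.Sch) : Prop := ∀ n : ℕ, T.dim Z < n → T.Weight Z n

end Pool.Agent.Helper53.Motivic
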